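import Pool.Agent.Q269.SX.St

/-!
# Project SX (helper269), job SX-BDX (helper151): transport to the groups of the statement
-/

set_option autoImplicit false
set_option linter.all false

open Polynomial IsDedekindDomain
open scoped Classical

namespace Pool.Agent.Q151.SX

open Finset
open Pool.Agent.Y164.HG
open Pool.Agent.Y713.SE (cl)
open Pool.Agent.Y713.SE.Dat (au rs)
open Pool.Agent.Y713.Jac (J Cochain IsCocycle IsLocallyTrivial IsCoboundary mapJ)
open Pool.Agent.Q269.SL (BoundedBy)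

/-- the classes of order two over `K` are the classes `cl (PT m)` -/
theorem tors_eq (hINJ : S_INJ) {n : ℕ} {K : Type} [Field K] (D : Pool.Agent.Y713.SE.Dat 2 n K)
    {p : ℕ} [ExpChar (SeparableClosure K) p] {t : ClassGroup (D.base K).A} (ht : t ^ 2 = 1) :
    ∃ m : Fin n → ℕ, t = cl ((D.base K).PT m) := by
  have h1 : (D.base (SeparableClosure K)).sC (D.mC (Algebra.ofId K (SeparableClosure K)) t) =
      D.mC (Algebra.ofId K (SeparableClosure K)) t := by
    rw [sC_inv, inv_eq_iff_mul_eq_one, ← sq, ← map_pow, ht, map_one]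
  obtain ⟨m, hm⟩ := (D.base (SeparableClosure K)).phi_ker (p := p) h1
  refine ⟨m, hINJ 2 n K D (SeparableClosure K) ?_⟩
  rw [D.mC_PT, hm, (D.base (SeparableClosure K)).cl_PT]

theorem t_BDX (h : S_INJ) : Pool.Agent.Q269.SX.S_BDX := by
  intro n K _ D R _ _ _ _ p _ A B M x c h1 h2 h3 h4 h5 hb
  refine hb A B (fun i => D.Te K (x i)) (fun j σ => D.Te (SeparableClosure K) (c j σ))
    ?_ ?_ ?_ ?_ ?_
  · rintro i j hij ⟨T, y, hT, hy⟩
    obtain ⟨t, ht⟩ : ∃ t, t = (D.Te K).symm T := ⟨_, rfl⟩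
    have ht2 : t ^ 2 = 1 := by rw [ht, ← map_pow, hT, map_one]
    obtain ⟨m, hm⟩ := tors_eq h D (p := p) ht2
    refine h1 i j hij ⟨m, (D.Te K).symm y, ?_⟩
    have h6 := congrArg (D.Te K).symm hy
    rw [MulEquiv.symm_apply_apply, map_mul, map_mul, map_pow, MulEquiv.symm_apply_apply, ← ht,
      hm] at h6
    exact h6
  · intro j
    refine ⟨(h2 j).1.comp _, fun σ τ => ?_⟩
    apply (D.Te (SeparableClosure K)).symm.injective
    rw [map_mul, D.Te_symm_nat, MulEquiv.symm_apply_apply, MulEquiv.symm_apply_apply]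
    have h6 : (D.Te (SeparableClosure K)).symm (D.Te (SeparableClosure K) (c j τ)) = c j τ :=
      MulEquiv.symm_apply_apply _ _
    beta_reduce
    rw [h6]
    exact (h2 j).2 σ τ
  · intro j v
    obtain ⟨ι, P, hP⟩ := h3 j v
    refine ⟨ι, D.Te _ P, fun τ σ hτσ => ?_⟩
    apply (D.Te (SeparableClosure (v.adicCompletion K))).symm.injective
    rw [D.Te_symm_nat, _root_.map_div, D.Te_symm_nat, MulEquiv.symm_apply_apply,
      MulEquiv.symm_apply_apply]
    exact hP τ σ hτσ
  · intro j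
    obtain ⟨Q, hQ⟩ := h4 j
    refine ⟨D.Te _ Q, fun σ => ?_⟩
    apply (D.Te (SeparableClosure K)).symm.injective
    rw [map_pow, _root_.map_div, D.Te_symm_nat, MulEquiv.symm_apply_apply,
      MulEquiv.symm_apply_apply]
    exact hQ σ
  · rintro i j hij ⟨Q, hQ⟩
    apply h5 i j hij
    refine ⟨(D.Te _).symm Q, fun σ => ?_⟩
    have h6 := congrArg (D.Te (SeparableClosure K)).symm (hQ σ)
    rw [_root_.map_div, _root_.map_div, D.Te_symm_nat, MulEquiv.symm_apply_apply,
      MulEquiv.symm_apply_apply] at h6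
    exact h6

end Pool.Agent.Q151.SX
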