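import Pool.Agent.Q269.SX.St

/-!
# Project SX (helper269), job SX-CNT (helper151): the number of the solutions
-/

set_option autoImplicit false
set_option linter.all false

open scoped Classical
open Finset

namespace Pool.Agent.Q151.SX

open Pool.Agent.Y164.HG
open Pool.Agent.Q269.SL (dg_TT' FF_corr dg_corr corr_eq)

theorem t_CNT (h : Pool.Agent.Q269.GJ.S_RAD) : Pool.Agent.Q269.SX.S_CNT := by
  intro W _ _ _ _ ι τ _ _ D A B d hA hcl hN
  have hks0 : D.ks 0 = 0 := by
    have h := D.ks_add 0 0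
    rw [add_zero, W_add_self] at h
    exact h
  unfold kc
  rw [← Nat.card_prod]
  refine Nat.card_congr (Equiv.ofBijective (fun q =>
    ((⟨q.1.1 + TT D (dg D d q.1.1), dg_corr D d hN q.1.1, fun w' hw' => by
        rw [FF_corr D B d hcl q.1.1 q.1.2 q.2.1 q.2.2, hw', om_zero_right]⟩ :
      {w : V W ι τ // dg D d w = 0 ∧ ∀ w' : V W ι τ, dg D d w' = 0 → FF D A B d w w' = 0}),
      dg D d q.1.1)) ⟨?_, ?_⟩)
  · rintro ⟨⟨w, x0⟩, h1, h2⟩ ⟨⟨w', x0'⟩, h1', h2'⟩ he
    obtain ⟨he1, he2⟩ := Prod.mk.inj he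
    have he3 := congrArg Subtype.val he1
    have he4 : dg D d w = dg D d w' := he2
    have he5 : w + TT D (dg D d w) = w' + TT D (dg D d w') := he3
    obtain ⟨c1, c2⟩ := corr_eq D B d hcl hN h1 h2 h1' h2' he5
    have hw : w = w' := by
      rw [he4] at he5
      exact add_right_cancel he5
    have hx : x0 = x0' := by
      rw [he4, W_add_self, hks0] at c2
      calc x0 = x0 + (x0' + x0') := by rw [W_add_self, add_zero]
        _ = x0' := by rw [← add_assoc, c2, zero_add]
    apply Subtype.ext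
    show (w, x0) = (w', x0')
    rw [hw, hx]
  · rintro ⟨⟨u, hu1, hu2⟩, y⟩
    obtain ⟨x0, k1, k2⟩ := h W ι τ D A B d hA u hu1 hu2
    refine ⟨⟨(u + TT D y, x0 + D.ks y), fun i => ?_, fun s => ?_⟩, ?_⟩
    · show E1 (A := A) D B d (u + TT D y) (x0 + D.ks y) i = 0
      rw [E1_add, k1, E1_TT, add_zero]
    · show E2 (ι := ι) D B (u + TT D y) (x0 + D.ks y) s = 0
      rw [E2_add, k2, E2_TT D B hcl, add_zero]
    · have e1 : dg D d (u + TT D y) = y := by rw [dg_add, hu1, zero_add, dg_TT' D d hN]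
      refine Prod.ext (Subtype.ext ?_) e1
      show u + TT D y + TT D (dg D d (u + TT D y)) = u
      rw [e1, add_assoc, Pool.Agent.Q269.SL.V_add_self, add_zero]

end Pool.Agent.Q151.SX
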