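import Pool.Agent.Q269.SX.St

/-!
# Project SX (helper269), job SX-E1C (helper151): converse of `E1_of_loc`
-/

set_option autoImplicit false
set_option linter.all false

open scoped Classical
open Polynomial IsDedekindDomain Finset

namespace Pool.Agent.Q151.SX

open Pool.Agent.Y164.HG
open Pool.Agent.Y713.SE (hp Pw cl)
open Pool.Agent.Y164.PS (L ch el Fam ch_mul el_mul el_ne L_comm L_prod_left coprime_of_not_dvd)

theorem t_E1C (h : Pool.Agent.Q269.SX.S_RPC) : Pool.Agent.Q269.SX.S_E1C := by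
  intro k K _ _ _ _ _ n a N H ι _ T _ hR D0 hδ he σ w x0 mi hrep x mv hm hE1 i j
  have hT := isRep_Tm (K := K) H hR D0 hδ he mv
  have h1 := (((hrep i).mul (hT i)).mul ((hrep j).mul (hT j)))
  have h2 : mi i * Tm D0 mv i * (mi j * Tm D0 mv j) = mi i * mi j * (Tm D0 mv i * Tm D0 mv j) := by
    ring
  rw [h2] at h1
  have hmv : ∀ i j, (mv i : F2) + mv j = (w.1 x).1 i + (w.1 x).1 j := by
    intro i j
    rw [hm, hm]
  have hks : ∀ i, H.comb.ksf (fun j => (mv j : F2)) i = H.comb.ksf (w.1 x).1 i := by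
    intro i
    refine sum_congr rfl fun l _ => ?_
    show ((mv i : F2) + mv l) * _ = _
    rw [hmv]
  refine (h k K (ι ⊕ Tau a) (RR a T) hR H.hk).2 _ _ _ h1 (Sum.inl x) ?_ ?_
  · show ((w.1 x).1 i + (mv i : F2)) + ((w.1 x).1 j + (mv j : F2)) = 0
    rw [hm, hm, F2_add_self, F2_add_self, add_zero]
  · have hE : (E1 (A := AT T) (H.dat σ) (BT (QQ a) T) (fun i => ((T i).natDegree : F2)) w x0 x).1 i +
        (E1 (A := AT T) (H.dat σ) (BT (QQ a) T) (fun i => ((T i).natDegree : F2)) w x0 x).1 j = 0 := by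
      rw [hE1]
      show (0 : F2) + 0 = 0
      exact add_zero 0
    rw [E1_coord, E1_coord] at hE
    rw [Fintype.sum_sum_type, ← hE]
    show _ + _ + ((T x).natDegree : F2) * ((x0.1 i + H.comb.ksf (fun j => (mv j : F2)) i) +
          (x0.1 j + H.comb.ksf (fun j => (mv j : F2)) j)) = _
    rw [hks, hks]
    have e1 : ∑ y, AT T x y * ((w.1 y).1 i + (w.1 x).1 i) + ∑ y, AT T x y * ((w.1 y).1 j + (w.1 x).1 j) =
        ∑ y : ι, ((uu H.p H.q w i (Sum.inl y) + Sum.elim (fun _ : ι => (mv i : F2))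
          (fun s => e2 (H.p s) (H.q s) i * ((mv (H.p s) : F2) + mv (H.q s))) (Sum.inl y)) +
          (uu H.p H.q w j (Sum.inl y) + Sum.elim (fun _ : ι => (mv j : F2))
          (fun s => e2 (H.p s) (H.q s) j * ((mv (H.p s) : F2) + mv (H.q s))) (Sum.inl y))) *
          L (RR a T (Sum.inl y)) (RR a T (Sum.inl x)) := by
      rw [← sum_add_distrib]
      refine sum_congr rfl fun y _ => ?_
      show AT T x y * ((w.1 y).1 i + (w.1 x).1 i) + AT T x y * ((w.1 y).1 j + (w.1 x).1 j) =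
        (((w.1 y).1 i + (mv i : F2)) + ((w.1 y).1 j + (mv j : F2))) * L (T y) (T x)
      have h2 : AT T x y = L (T y) (T x) := L_comm H.hm _ _
      rw [h2]
      have h3 := hmv i j
      have h4 : ∀ a b c d e f l : F2, c + f = b + e → l * (a + b) + l * (d + e) = ((a + c) + (d + f)) * l := by
        decide
      exact h4 _ _ _ _ _ _ _ h3
    have e2' : ∑ s, BT (QQ a) T x s * (((w.1 x).1 (H.p s) + (w.1 x).1 (H.q s)) * e2 (H.p s) (H.q s) i +
          w.2 s * e2 (H.p s) (H.q s) i) +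
        ∑ s, BT (QQ a) T x s * (((w.1 x).1 (H.p s) + (w.1 x).1 (H.q s)) * e2 (H.p s) (H.q s) j +
          w.2 s * e2 (H.p s) (H.q s) j) =
        ∑ s : Tau a, ((uu H.p H.q w i (Sum.inr s) + Sum.elim (fun _ : ι => (mv i : F2))
          (fun s => e2 (H.p s) (H.q s) i * ((mv (H.p s) : F2) + mv (H.q s))) (Sum.inr s)) +
          (uu H.p H.q w j (Sum.inr s) + Sum.elim (fun _ : ι => (mv j : F2))
          (fun s => e2 (H.p s) (H.q s) j * ((mv (H.p s) : F2) + mv (H.q s))) (Sum.inr s))) *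
          L (RR a T (Sum.inr s)) (RR a T (Sum.inl x)) := by
      rw [← sum_add_distrib]
      refine sum_congr rfl fun s _ => ?_
      show _ = ((w.2 s * e2 (H.p s) (H.q s) i + e2 (H.p s) (H.q s) i * ((mv (H.p s) : F2) + mv (H.q s))) +
        (w.2 s * e2 (H.p s) (H.q s) j + e2 (H.p s) (H.q s) j * ((mv (H.p s) : F2) + mv (H.q s)))) *
        L (QQ a s) (T x)
      have h2 : BT (QQ a) T x s = L (QQ a s) (T x) := L_comm H.hm _ _
      rw [h2, hmv]
      ring
    refine (congrArg₂ (· + ·) (congrArg₂ (· + ·) e1.symm e2'.symm) rfl).trans ?_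
    ring

end Pool.Agent.Q151.SX
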