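import Pool.Agent.Q269.SX.St

/-!
# Project SX (helper269), job SX-E2C (helper151): converse of `E2_of_loc` and the valuations
-/

set_option autoImplicit false
set_option linter.all false

open scoped Classical
open Polynomial IsDedekindDomain Finset

namespace Pool.Agent.Q151.SX

open Pool.Agent.Y164.HG
open Pool.Agent.Y713.SE (hp Pw cl)
open Pool.Agent.Y164.PS (L ch el Fam ch_mul el_mul el_ne L_comm L_prod_left coprime_of_not_dvd)

theorem t_E2C (h : Pool.Agent.Q269.SX.S_RPC) : Pool.Agent.Q269.SX.S_E2C := by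
  intro k K _ _ _ _ _ n a N H ι _ T _ hR D0 hδ he σ hcl w x0 mi hrep s r hr hE2
  obtain ⟨mv, hmv⟩ : ∃ mv : Fin n → ℕ, mv = fun l => if l = H.q s then r else 0 := ⟨_, rfl⟩
  rw [← hmv]
  have hT := isRep_Tm (K := K) H hR D0 hδ he mv
  have hpq : H.p s ≠ H.q s := ne_of_lt (H.lt s)
  have hmi : (mv (H.p s) : F2) = 0 := by
    rw [hmv]
    simp only [if_neg hpq, Nat.cast_zero]
  have hmj : (mv (H.q s) : F2) = w.2 s := by
    rw [hmv]
    simp only [if_true]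
    exact hr
  have h1 : ∀ i j, IsRep (RR a T) (mi i * mi j * (Tm D0 mv i * Tm D0 mv j)) _ _ := fun i j => by
    have h2 : mi i * Tm D0 mv i * (mi j * Tm D0 mv j) = mi i * mi j * (Tm D0 mv i * Tm D0 mv j) := by
      ring
    have h3 := (((hrep i).mul (hT i)).mul ((hrep j).mul (hT j)))
    rw [h2] at h3
    exact h3
  have hex : ∀ i j, (uu H.p H.q w i (Sum.inr s) + Sum.elim (fun _ : ι => (mv i : F2))
        (fun s => e2 (H.p s) (H.q s) i * ((mv (H.p s) : F2) + mv (H.q s))) (Sum.inr s)) +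
        (uu H.p H.q w j (Sum.inr s) + Sum.elim (fun _ : ι => (mv j : F2))
        (fun s => e2 (H.p s) (H.q s) j * ((mv (H.p s) : F2) + mv (H.q s))) (Sum.inr s)) = 0 := by
    intro i j
    show (w.2 s * e2 (H.p s) (H.q s) i + e2 (H.p s) (H.q s) i * ((mv (H.p s) : F2) + mv (H.q s))) +
      (w.2 s * e2 (H.p s) (H.q s) j + e2 (H.p s) (H.q s) j * ((mv (H.p s) : F2) + mv (H.q s))) = 0
    rw [hmi, hmj, zero_add, mul_comm (e2 (H.p s) (H.q s) i), mul_comm (e2 (H.p s) (H.q s) j),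
      F2_add_self, F2_add_self, add_zero]
  obtain ⟨hR1, hR2⟩ := h k K (ι ⊕ Tau a) (RR a T) hR H.hk
  refine ⟨?_, fun i j => (hR1 _ _ _ (h1 i j)).1 (Sum.inr s) (hex i j)⟩
  refine hR2 _ _ _ (h1 (H.p s) (H.q s)) (Sum.inr s) (hex _ _) ?_
  rw [Fintype.sum_sum_type]
  have h4 := H.comb.h1fun s (fun l => (mv l : F2))
  have h4' : ∑ s', L (QQ a s) (QQ a s') * (((mv (H.p s') : F2) + mv (H.q s')) *
      (e2 (H.p s') (H.q s') (H.p s) + e2 (H.p s') (H.q s') (H.q s))) +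
      ((QQ a s).natDegree : F2) * (H.comb.ksf (fun l => (mv l : F2)) (H.p s) +
        H.comb.ksf (fun l => (mv l : F2)) (H.q s)) =
      H.comb.gg s * ((mv (H.p s) : F2) + mv (H.q s)) := h4
  rw [hmi, hmj, zero_add] at h4'
  have e1 : ∑ y : ι, (uu H.p H.q w (H.p s) (Sum.inl y) + Sum.elim (fun _ : ι => (mv (H.p s) : F2))
        (fun s' => e2 (H.p s') (H.q s') (H.p s) * ((mv (H.p s') : F2) + mv (H.q s'))) (Sum.inl y) +
        (uu H.p H.q w (H.q s) (Sum.inl y) + Sum.elim (fun _ : ι => (mv (H.q s) : F2))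
        (fun s' => e2 (H.p s') (H.q s') (H.q s) * ((mv (H.p s') : F2) + mv (H.q s'))) (Sum.inl y))) *
        L (RR a T (Sum.inl y)) (RR a T (Sum.inr s)) =
      ∑ y, BT (QQ a) T y s * om (w.1 y) (E2v (H.p s) (H.q s)) + w.2 s * ∑ y, BT (QQ a) T y s := by
    rw [mul_sum, ← sum_add_distrib]
    refine sum_congr rfl fun y _ => ?_
    show ((w.1 y).1 (H.p s) + (mv (H.p s) : F2) + ((w.1 y).1 (H.q s) + (mv (H.q s) : F2))) *
      L (T y) (QQ a s) =
      L (T y) (QQ a s) * om (w.1 y) (E2v (H.p s) (H.q s)) + w.2 s * L (T y) (QQ a s)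
    rw [om_E2v, hmi, hmj]
    ring
  have e2' : ∑ s' : Tau a, (uu H.p H.q w (H.p s) (Sum.inr s') +
        Sum.elim (fun _ : ι => (mv (H.p s) : F2))
        (fun s' => e2 (H.p s') (H.q s') (H.p s) * ((mv (H.p s') : F2) + mv (H.q s'))) (Sum.inr s') +
        (uu H.p H.q w (H.q s) (Sum.inr s') + Sum.elim (fun _ : ι => (mv (H.q s) : F2))
        (fun s' => e2 (H.p s') (H.q s') (H.q s) * ((mv (H.p s') : F2) + mv (H.q s'))) (Sum.inr s'))) *
        L (RR a T (Sum.inr s')) (RR a T (Sum.inr s)) =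
      ∑ s', L (QQ a s) (QQ a s') * (w.2 s' * om (E2v (H.p s') (H.q s')) (E2v (H.p s) (H.q s))) +
      ∑ s', L (QQ a s) (QQ a s') * (((mv (H.p s') : F2) + mv (H.q s')) *
        (e2 (H.p s') (H.q s') (H.p s) + e2 (H.p s') (H.q s') (H.q s))) := by
    rw [← sum_add_distrib]
    refine sum_congr rfl fun s' _ => ?_
    show (w.2 s' * e2 (H.p s') (H.q s') (H.p s) + e2 (H.p s') (H.q s') (H.p s) *
        ((mv (H.p s') : F2) + mv (H.q s')) +
      (w.2 s' * e2 (H.p s') (H.q s') (H.q s) + e2 (H.p s') (H.q s') (H.q s) *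
        ((mv (H.p s') : F2) + mv (H.q s')))) *
      L (QQ a s') (QQ a s) = _
    rw [om_E2v, L_comm H.hm (QQ a s') (QQ a s)]
    show _ = L (QQ a s) (QQ a s') * (w.2 s' * (e2 (H.p s') (H.q s') (H.p s) +
      e2 (H.p s') (H.q s') (H.q s))) + _
    ring
  refine (congrArg₂ (· + ·) (congrArg₂ (· + ·) e1 e2') rfl).trans ?_
  have h5 : E2 (H.dat σ) (BT (QQ a) T) w x0 s =
      σ s * w.2 s + ∑ y, BT (QQ a) T y s * om (w.1 y) (E2v (H.p s) (H.q s)) +
      ∑ s', L (QQ a s) (QQ a s') * (w.2 s' * om (E2v (H.p s') (H.q s')) (E2v (H.p s) (H.q s))) +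
      ((QQ a s).natDegree : F2) * (x0.1 (H.p s) + x0.1 (H.q s)) := by
    rw [← om_E2v x0 (H.p s) (H.q s)]
    rfl
  rw [h5] at hE2
  have h6 := hcl s
  obtain ⟨X1, hX1⟩ : ∃ X1, X1 = ∑ y, BT (QQ a) T y s * om (w.1 y) (E2v (H.p s) (H.q s)) := ⟨_, rfl⟩
  obtain ⟨X2, hX2⟩ : ∃ X2, X2 = ∑ y, BT (QQ a) T y s := ⟨_, rfl⟩
  obtain ⟨X3, hX3⟩ : ∃ X3, X3 = ∑ s', L (QQ a s) (QQ a s') *
    (w.2 s' * om (E2v (H.p s') (H.q s')) (E2v (H.p s) (H.q s))) := ⟨_, rfl⟩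
  obtain ⟨X4, hX4⟩ : ∃ X4, X4 = ∑ s', L (QQ a s) (QQ a s') *
    (((mv (H.p s') : F2) + mv (H.q s')) * (e2 (H.p s') (H.q s') (H.p s) +
      e2 (H.p s') (H.q s') (H.q s))) := ⟨_, rfl⟩
  show ∑ y, BT (QQ a) T y s * om (w.1 y) (E2v (H.p s) (H.q s)) + w.2 s * ∑ y, BT (QQ a) T y s +
    (∑ s', L (QQ a s) (QQ a s') * (w.2 s' * om (E2v (H.p s') (H.q s')) (E2v (H.p s) (H.q s))) +
      ∑ s', L (QQ a s) (QQ a s') * (((mv (H.p s') : F2) + mv (H.q s')) *
        (e2 (H.p s') (H.q s') (H.p s) + e2 (H.p s') (H.q s') (H.q s)))) +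
    ((QQ a s).natDegree : F2) *
      (x0.1 (H.p s) + H.comb.ksf (fun l => (mv l : F2)) (H.p s) +
        (x0.1 (H.q s) + H.comb.ksf (fun l => (mv l : F2)) (H.q s))) = 0
  rw [← hX1, ← hX2, ← hX3, ← hX4]
  rw [← hX4] at h4'
  rw [← hX1, ← hX3] at hE2
  rw [← hX2] at h6
  have h7 := F2_add_self (σ s * w.2 s)
  linear_combination hE2 + h4' + w.2 s * h6 - h7

end Pool.Agent.Q151.SX
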